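import Pool.Agent.MP_32607b_nt.H62.Main

namespace Pool.Agent.Results.MP_32607b_nt.Full

/-- For all positive integers `m, n, k` with `m ≥ k`: the prefactor
`((2k+1)(2m+1)+1)! / ((2k+1)!)^(2m+1)` is an integer `C`, and `n^2` divides
`C * ∑_{h<n} binom(h, 2k+1)^(2m+1)`. -/
theorem result (m n k : ℕ) (hm : 0 < m) (hn : 0 < n) (hk : 0 < k) (hkm : k ≤ m) :
    ∃ C : ℕ, ((2 * k + 1) * (2 * m + 1) + 1).factorial
        = C * (2 * k + 1).factorial ^ (2 * m + 1) ∧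
      n ^ 2 ∣ C * ∑ h ∈ Finset.range n, (h.choose (2 * k + 1)) ^ (2 * m + 1) := by
  refine ⟨((2 * k + 1) * (2 * m + 1) + 1).factorial / (2 * k + 1).factorial ^ (2 * m + 1), ?_, ?_⟩
  · exact (Nat.div_mul_cancel (Pool.Agent.MP_32607b_nt.H62.fact_pow_dvd _ _)).symm
  · exact Pool.Agent.MP_32607b_nt.H62.main ⟨k, rfl⟩ ⟨m, rfl⟩ (by omega) (by omega) hn

end Pool.Agent.Results.MP_32607b_nt.Full
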